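import Pool.Agent.Helper32.B4.St

/-!
# B4, module IA: pointwise identities under the integral and signs
-/

set_option autoImplicit false

open Metric Set Filter Topology MeasureTheory
open scoped ComplexConjugate Interval

namespace Pool.Agent.Helper39.B4

open Pool.Agent.Helper32.B4

theorem ii01 {g : ℝ → ℝ} (hg : Measurable g) {C : ℝ}
    (hC : ∀ u, 0 ≤ u → u ≤ 1 → |g u| ≤ C) : IntervalIntegrable g volume 0 1 := by
  refine ii_of_bdd (C := C) hg.aestronglyMeasurable ?_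
  intro u hu
  rw [uIoc_of_le zero_le_one] at hu
  rw [Real.norm_eq_abs]
  exact hC u hu.1.le hu.2

theorem mono01 {f g : ℝ → ℝ} (hf : IntervalIntegrable f volume 0 1)
    (hg : IntervalIntegrable g volume 0 1) (h : ∀ u, 0 ≤ u → u ≤ 1 → f u ≤ g u) :
    (∫ u in (0:ℝ)..1, f u) ≤ ∫ u in (0:ℝ)..1, g u :=
  intervalIntegral.integral_mono_on zero_le_one hf hg (fun u hu => h u hu.1 hu.2)

theorem nonneg01 {f : ℝ → ℝ} (h : ∀ u, 0 ≤ u → u ≤ 1 → 0 ≤ f u) :
    0 ≤ ∫ u in (0:ℝ)..1, f u :=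
  intervalIntegral.integral_nonneg zero_le_one (fun u hu => h u hu.1 hu.2)

theorem ii_bdd_all {g : ℝ → ℝ} (hg : Measurable g) {C : ℝ} (hC : ∀ u, |g u| ≤ C) (a b : ℝ) :
    IntervalIntegrable g volume a b :=
  ii_of_bdd (C := C) hg.aestronglyMeasurable (fun u _ => by rw [Real.norm_eq_abs]; exact hC u)

theorem abs_nu_le (θ : ℝ → ℝ) (u : ℝ) : |nu θ u| ≤ 2 := by
  rw [abs_of_nonneg (nu_nonneg θ u)]
  exact nu_le θ u

theorem meas_tl {g : ℝ → ℝ} (hg : Measurable g) {C : ℝ} (hC : ∀ u, |g u| ≤ C) :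
    Measurable (tl g) :=
  (continuous_tl (fun a b => ii_bdd_all hg hC a b)).measurable

theorem abs_tl_le {g : ℝ → ℝ} {C : ℝ} (hC : ∀ u, |g u| ≤ C) (u : ℝ) (h0 : 0 ≤ u) (h1 : u ≤ 1) :
    |tl g u| ≤ C := by
  have hC0 : 0 ≤ C := (abs_nonneg _).trans (hC 0)
  have h := intervalIntegral.norm_integral_le_of_norm_le_const (a := u) (b := 1) (f := g) (C := C)
    (fun x _ => by rw [Real.norm_eq_abs]; exact hC x)
  rw [Real.norm_eq_abs, abs_of_nonneg (by linarith : (0:ℝ) ≤ 1 - u)] at h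
  unfold tl
  calc |∫ v in u..1, g v| ≤ C * (1 - u) := h
    _ ≤ C * 1 := by
        apply mul_le_mul_of_nonneg_left _ hC0
        linarith
    _ = C := mul_one C

theorem tl_nonneg {g : ℝ → ℝ} (hg : ∀ u, 0 ≤ g u) (u : ℝ) (h1 : u ≤ 1) : 0 ≤ tl g u :=
  intervalIntegral.integral_nonneg h1 (fun v _ => hg v)

theorem hIA : StIA := by
  intro θ hθ
  have mn := meas_nu hθ
  have ms := meas_sn hθ
  have mc := meas_cs hθ
  have n0 := nu_nonneg θ
  have n2 := nu_le θ
  have an := abs_nu_le θ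
  have as := abs_sn_le θ
  have ac := abs_cs_le θ
  have mts : Measurable (tl (sn θ)) := meas_tl ms as
  have ats := abs_tl_le as
  have sq := sn_sq θ
  have ssq1 : ∀ u, sn θ u ^ 2 ≤ 1 := fun u => by
    have := as u
    rw [← sq_abs]
    nlinarith [abs_nonneg (sn θ u)]
  -- integrability
  have iD : IntervalIntegrable (fun u => nu θ u) volume 0 1 := ii01 mn (fun u _ _ => an u)
  have iN : IntervalIntegrable (fun u => nu θ u ^ 2) volume 0 1 := by
    refine ii01 (C := 4) (by fun_prop) (fun u _ _ => ?_)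
    rw [abs_of_nonneg (sq_nonneg _)]
    nlinarith [n0 u, n2 u]
  have iS : IntervalIntegrable (fun u => sn θ u ^ 2) volume 0 1 := by
    refine ii01 (C := 1) (by fun_prop) (fun u _ _ => ?_)
    rw [abs_of_nonneg (sq_nonneg _)]
    exact ssq1 u
  have iM : IntervalIntegrable (fun u => u * nu θ u) volume 0 1 := by
    refine ii01 (C := 2) (by fun_prop) (fun u h0 h1 => ?_)
    rw [abs_of_nonneg (mul_nonneg h0 (n0 u))]
    nlinarith [n0 u, n2 u]
  have iU : IntervalIntegrable (fun u => u * nu θ u ^ 2) volume 0 1 := by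
    refine ii01 (C := 4) (by fun_prop) (fun u h0 h1 => ?_)
    rw [abs_of_nonneg (mul_nonneg h0 (sq_nonneg _))]
    have : nu θ u ^ 2 ≤ 4 := by nlinarith [n0 u, n2 u]
    nlinarith [sq_nonneg (nu θ u)]
  have iL : IntervalIntegrable (fun u => u * sn θ u) volume 0 1 := by
    refine ii01 (C := 1) (by fun_prop) (fun u h0 h1 => ?_)
    rw [abs_mul, abs_of_nonneg h0]
    have := as u
    nlinarith [abs_nonneg (sn θ u)]
  have bL : ∀ u, 0 ≤ u → u ≤ 1 → |u * sn θ u| ≤ 1 := fun u h0 h1 => by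
    rw [abs_mul, abs_of_nonneg h0]
    have := as u
    nlinarith [abs_nonneg (sn θ u)]
  have bJ : ∀ u, 0 ≤ u → u ≤ 1 → |u * sn θ u * nu θ u| ≤ 2 := fun u h0 h1 => by
    rw [abs_mul]
    have h3 := bL u h0 h1
    have h4 := an u
    calc |u * sn θ u| * |nu θ u| ≤ 1 * 2 :=
          mul_le_mul h3 h4 (abs_nonneg _) zero_le_one
      _ = 2 := by norm_num
  have iJ : IntervalIntegrable (fun u => u * sn θ u * nu θ u) volume 0 1 :=
    ii01 (C := 2) (by fun_prop) bJ
  have iK : IntervalIntegrable (fun u => u * sn θ u * tl (sn θ) u) volume 0 1 := by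
    refine ii01 (C := 1) (by fun_prop) (fun u h0 h1 => ?_)
    rw [abs_mul]
    calc |u * sn θ u| * |tl (sn θ) u| ≤ 1 * 1 :=
          mul_le_mul (bL u h0 h1) (ats u h0 h1) (abs_nonneg _) zero_le_one
      _ = 1 := by norm_num
  have iI : IntervalIntegrable (fun u => u * sn θ u * nu θ u * tl (sn θ) u) volume 0 1 := by
    refine ii01 (C := 2) (by fun_prop) (fun u h0 h1 => ?_)
    rw [abs_mul]
    calc |u * sn θ u * nu θ u| * |tl (sn θ) u| ≤ 2 * 1 :=
          mul_le_mul (bJ u h0 h1) (ats u h0 h1) (abs_nonneg _) (by norm_num)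
      _ = 2 := by norm_num
  have hA0 : ∀ u, 0 ≤ u ^ 2 * sn θ u ^ 2 * nu θ u := fun u =>
    mul_nonneg (mul_nonneg (sq_nonneg _) (sq_nonneg _)) (n0 u)
  have hA1 : ∀ u, 0 ≤ u → u ≤ 1 → u ^ 2 * sn θ u ^ 2 * nu θ u ≤ nu θ u := fun u h0 h1 => by
    have h3 : u ^ 2 * sn θ u ^ 2 ≤ 1 := by
      have h4 : u ^ 2 ≤ 1 := by nlinarith
      calc u ^ 2 * sn θ u ^ 2 ≤ 1 * 1 := mul_le_mul h4 (ssq1 u) (sq_nonneg _) zero_le_one
        _ = 1 := by norm_num
    calc u ^ 2 * sn θ u ^ 2 * nu θ u ≤ 1 * nu θ u := mul_le_mul_of_nonneg_right h3 (n0 u)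
      _ = nu θ u := one_mul _
  have iA : IntervalIntegrable (fun u => u ^ 2 * sn θ u ^ 2 * nu θ u) volume 0 1 := by
    refine ii01 (C := 2) (by fun_prop) (fun u h0 h1 => ?_)
    rw [abs_of_nonneg (hA0 u)]
    exact (hA1 u h0 h1).trans (n2 u)
  have iq : IntervalIntegrable (fun u => (24 * u - 16 * u ^ 2) * sn θ u ^ 2) volume 0 1 := by
    refine ii01 (C := 9) (by fun_prop) (fun u h0 h1 => ?_)
    rw [abs_mul, abs_of_nonneg (sq_nonneg (sn θ u))]
    have h3 : |24 * u - 16 * u ^ 2| ≤ 9 := by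
      rw [abs_le]
      constructor
      · nlinarith
      · nlinarith [sq_nonneg (4 * u - 3)]
    calc |24 * u - 16 * u ^ 2| * sn θ u ^ 2 ≤ 9 * 1 :=
          mul_le_mul h3 (ssq1 u) (sq_nonneg _) (by norm_num)
      _ = 9 := by norm_num
  refine ⟨?_, ?_, ?_, ?_, ?_, ?_, ?_, ?_, ?_, ?_, ?_, ?_, ?_, ?_, ?_⟩
  · unfold fD fS fN
    rw [← intervalIntegral.integral_const_mul, ← intervalIntegral.integral_add iS iN]
    congr 1
    funext u
    rw [sq u]
    ring
  · unfold fZ fM fU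
    rw [← intervalIntegral.integral_const_mul,
      ← intervalIntegral.integral_sub (iM.const_mul 2) iU]
    congr 1
    funext u
    rw [sq u]
    ring
  · unfold fT fL fJ
    rw [← intervalIntegral.integral_sub iL iJ]
    congr 1
    funext u
    rw [cs_eq]
    ring
  · unfold fV fK fI
    rw [← intervalIntegral.integral_sub iK iI]
    congr 1
    funext u
    rw [cs_eq]
    ring
  · exact nonneg01 (fun u _ _ => n0 u)
  · have h := mono01 iD (intervalIntegrable_const (c := (2:ℝ))) (fun u _ _ => n2 u)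
    unfold fD
    simpa using h
  · exact nonneg01 (fun u _ _ => sq_nonneg _)
  · exact nonneg01 (fun u _ _ => sq_nonneg _)
  · exact nonneg01 (fun u _ _ => hA0 u)
  · exact mono01 iA iD hA1
  · exact nonneg01 (fun u h0 _ => mul_nonneg h0 (sq_nonneg _))
  · exact nonneg01 (fun u h0 _ => mul_nonneg h0 (n0 u))
  · exact nonneg01 (fun u h0 _ => mul_nonneg h0 (sq_nonneg _))
  · refine nonneg01 (fun u h0 h1 => mul_nonneg (mul_nonneg h0 (sq_nonneg _)) ?_)
    exact tl_nonneg n0 u h1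
  · unfold fq fS
    rw [← intervalIntegral.integral_const_mul]
    refine mono01 iq (iS.const_mul 9) (fun u _ _ => ?_)
    have h3 : 24 * u - 16 * u ^ 2 ≤ 9 := by nlinarith [sq_nonneg (4 * u - 3)]
    exact mul_le_mul_of_nonneg_right h3 (sq_nonneg _)

end Pool.Agent.Helper39.B4
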